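import Mathlib

set_option autoImplicit false

namespace Pool.Agent.H5.RA

open MeasureTheory Filter Topology SchwartzMap FourierTransform Set
open scoped ENNReal Real

/-- The open interval `(-A, A)`, where `0 < A ≤ ∞`. -/
def Iv (A : ℝ≥0∞) : Set ℝ := {x | ENNReal.ofReal |x| < A}

/-- The sup-norm on `ℝ` of the almost periodic polynomial `t ↦ ∑ x, c x * exp (i x t)`. -/
noncomputable def apNorm (c : ℝ →₀ ℂ) : ℝ :=
  ⨆ t : ℝ, ‖c.sum fun x a => a * Complex.exp (Complex.I * x * t)‖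

/-- The bound `‖∑ x, c x * f x‖ ≤ C * ‖∑ x, c x * exp (i x ·)‖` for all exponents in `(-A, A)`. -/
def BoundR (A : ℝ≥0∞) (C : ℝ) (f : ℝ → ℂ) : Prop :=
  ∀ c : ℝ →₀ ℂ, (∀ x ∈ c.support, x ∈ Iv A) → ‖c.sum fun x a => a * f x‖ ≤ C * apNorm c

theorem BoundR.finset {A : ℝ≥0∞} {C : ℝ} {f : ℝ → ℂ} (hC : 0 ≤ C) (h : BoundR A C f) {ι : Type*}
    (S : Finset ι) (x : ι → ℝ) (a : ι → ℂ) (hx : ∀ i ∈ S, x i ∈ Iv A) (B : ℝ)
    (hB : ∀ t : ℝ, ‖∑ i ∈ S, a i * Complex.exp (Complex.I * x i * t)‖ ≤ B) :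
    ‖∑ i ∈ S, a i * f (x i)‖ ≤ C * B := by
  classical
  set c : ℝ →₀ ℂ := ∑ i ∈ S, Finsupp.single (x i) (a i) with hc
  have key : ∀ g : ℝ → ℂ, c.sum (fun x a => a * g x) = ∑ i ∈ S, a i * g (x i) := by
    intro g
    rw [hc, ← Finsupp.sum_finsetSum_index]
    · apply Finset.sum_congr rfl
      intro i _
      rw [Finsupp.sum_single_index]
      simp
    · intro x; simp
    · intro x a b; ring
  have h1 := h c (by
    intro y hy
    have := Finsupp.support_finsetSum hy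
    rw [Finset.mem_biUnion] at this
    obtain ⟨i, hi, hyi⟩ := this
    have h2 := Finsupp.support_single_subset hyi
    rw [Finset.mem_singleton] at h2
    rw [h2]
    exact hx i hi)
  rw [key] at h1
  refine h1.trans (mul_le_mul_of_nonneg_left ?_ hC)
  apply ciSup_le
  intro t
  rw [key (fun x => Complex.exp (Complex.I * x * t))]
  exact hB t

/-- Fourier transform of an affinely rescaled and modulated function. -/
theorem norm_fourier_affine (p : 𝓢(ℝ, ℂ)) {h : ℝ} (hh : 0 < h) (s τ ξ : ℝ) :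
    ‖𝓕 (fun y : ℝ => p (s + h * y) * Complex.exp (((-2 * π * (s + h * y) * τ : ℝ) : ℂ) * Complex.I)) ξ‖
      = h⁻¹ * ‖(𝓕 p) (ξ / h + τ)‖ := by
  rw [Real.fourier_real_eq_integral_exp_smul]
  set F : ℝ → ℂ := fun x => Complex.exp (((-2 * π * ((x - s) / h) * ξ : ℝ) : ℂ) * Complex.I) •
    (p x * Complex.exp (((-2 * π * x * τ : ℝ) : ℂ) * Complex.I)) with hF
  have e1 : (∫ v : ℝ, Complex.exp (((-2 * π * v * ξ : ℝ) : ℂ) * Complex.I) •
      (p (s + h * v) * Complex.exp (((-2 * π * (s + h * v) * τ : ℝ) : ℂ) * Complex.I)))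
      = ∫ v : ℝ, F (s + h * v) := by
    congr 1
    ext v
    rw [hF]
    simp only
    have : (s + h * v - s) / h = v := by field_simp; ring
    rw [this]
  rw [e1]
  have e2 : (∫ v : ℝ, F (s + h * v)) = |h⁻¹| • ∫ x : ℝ, F (s + x) :=
    MeasureTheory.Measure.integral_comp_mul_left (fun x => F (s + x)) h
  rw [e2, integral_add_left_eq_self F s]
  have e3 : (∫ x : ℝ, F x) = Complex.exp (((2 * π * (s / h) * ξ : ℝ) : ℂ) * Complex.I) *
      (𝓕 p) (ξ / h + τ) := by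
    rw [SchwartzMap.fourier_coe, Real.fourier_real_eq_integral_exp_smul, ← integral_const_mul]
    congr 1
    ext x
    rw [hF]
    simp only [smul_eq_mul]
    have hexp : Complex.exp (((-2 * π * ((x - s) / h) * ξ : ℝ) : ℂ) * Complex.I) *
        Complex.exp (((-2 * π * x * τ : ℝ) : ℂ) * Complex.I) =
        Complex.exp (((2 * π * (s / h) * ξ : ℝ) : ℂ) * Complex.I) *
        Complex.exp (((-2 * π * x * (ξ / h + τ) : ℝ) : ℂ) * Complex.I) := by
      rw [← Complex.exp_add, ← Complex.exp_add]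
      congr 1
      push_cast
      have : (h : ℂ) ≠ 0 := by exact_mod_cast hh.ne'
      field_simp
      ring
    linear_combination (p x) * hexp
  rw [e3, norm_smul, norm_mul, Complex.norm_exp_ofReal_mul_I, one_mul, Real.norm_eq_abs, abs_abs,
    abs_of_pos (inv_pos.mpr hh)]

/-- Decay of the Fourier transform. -/
theorem exists_decay (P : 𝓢(ℝ, ℂ)) : ∃ D : ℝ, 0 ≤ D ∧ ∀ ξ : ℝ, ξ ^ 2 * ‖P ξ‖ ≤ D := by
  obtain ⟨D, hD, h⟩ := P.decay 2 0
  refine ⟨D, hD.le, fun ξ => ?_⟩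
  have := h ξ
  rw [norm_iteratedFDeriv_zero, Real.norm_eq_abs, sq_abs] at this
  exact this

theorem shifted_bound {P : 𝓢(ℝ, ℂ)} {D M : ℝ} (hD : ∀ ξ : ℝ, ξ ^ 2 * ‖P ξ‖ ≤ D)
    (hM : ∀ ξ, ‖P ξ‖ ≤ M) {h : ℝ} (hh : 0 < h) (τ : ℝ) (m : ℤ) :
    ‖P (((m - round (τ * h) : ℤ) : ℝ) / h + τ)‖ ≤
      (if m = 0 then M else 0) + 4 * D * h ^ 2 * (1 / (m : ℝ) ^ 2) := by
  have hD0 : 0 ≤ D := le_trans (by positivity) (hD 0)
  by_cases hm : m = 0
  · rw [if_pos hm]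
    have : 0 ≤ 4 * D * h ^ 2 * (1 / (m : ℝ) ^ 2) := by positivity
    linarith [hM (((m - round (τ * h) : ℤ) : ℝ) / h + τ)]
  · rw [if_neg hm, zero_add]
    set ξ : ℝ := ((m - round (τ * h) : ℤ) : ℝ) / h + τ with hξ
    set θ : ℝ := τ * h - round (τ * h) with hθ
    have h1 : |θ| ≤ 1 / 2 := abs_sub_round _
    have h2 : ξ = (m + θ) / h := by
      rw [hξ, hθ]
      push_cast
      field_simp
      ring
    have h3 : (1 : ℝ) ≤ |(m : ℝ)| := by
      have : (1 : ℤ) ≤ |m| := Int.one_le_abs hm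
      exact_mod_cast this
    have h4 : |(m : ℝ)| / 2 ≤ |m + θ| := by
      have := abs_sub_abs_le_abs_sub (m : ℝ) (-θ)
      rw [abs_neg, sub_neg_eq_add] at this
      linarith
    have h5 : (m : ℝ) ^ 2 / 4 ≤ (m + θ) ^ 2 := by
      rw [← sq_abs (m : ℝ), ← sq_abs ((m : ℝ) + θ)]
      nlinarith [abs_nonneg (m : ℝ)]
    have h6 := hD ξ
    have hmpos : (0 : ℝ) < (m : ℝ) ^ 2 := by
      have : (m : ℝ) ≠ 0 := by exact_mod_cast hm
      positivity
    have h7 : (m : ℝ) ^ 2 / (4 * h ^ 2) * ‖P ξ‖ ≤ D := by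
      refine le_trans ?_ h6
      apply mul_le_mul_of_nonneg_right _ (norm_nonneg _)
      rw [h2, div_pow, div_le_div_iff₀ (by positivity) (by positivity)]
      nlinarith [sq_nonneg h]
    have h8 : ‖P ξ‖ = (4 * h ^ 2 * (1 / (m : ℝ) ^ 2)) * ((m : ℝ) ^ 2 / (4 * h ^ 2) * ‖P ξ‖) := by
      field_simp
    rw [h8]
    have h9 : 0 ≤ 4 * h ^ 2 * (1 / (m : ℝ) ^ 2) := by positivity
    calc _ ≤ (4 * h ^ 2 * (1 / (m : ℝ) ^ 2)) * D := mul_le_mul_of_nonneg_left h7 h9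
      _ = _ := by ring

theorem summable_bound (M c : ℝ) :
    Summable fun m : ℤ => (if m = 0 then M else 0) + c * (1 / (m : ℝ) ^ 2) := by
  apply Summable.add
  · exact (hasSum_ite_eq (0 : ℤ) M).summable
  · exact (Real.summable_one_div_int_pow.mpr one_lt_two).mul_left _

theorem tsum_bound {P : 𝓢(ℝ, ℂ)} {D M : ℝ} (hD : ∀ ξ : ℝ, ξ ^ 2 * ‖P ξ‖ ≤ D)
    (hM : ∀ ξ, ‖P ξ‖ ≤ M) {h : ℝ} (hh : 0 < h) (τ : ℝ) :
    Summable (fun n : ℤ => ‖P ((n : ℝ) / h + τ)‖) ∧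
    ∑' n : ℤ, ‖P ((n : ℝ) / h + τ)‖ ≤ M + 4 * D * h ^ 2 * ∑' m : ℤ, 1 / (m : ℝ) ^ 2 := by
  have hs : Summable (fun m : ℤ => ‖P (((m - round (τ * h) : ℤ) : ℝ) / h + τ)‖) :=
    Summable.of_nonneg_of_le (fun _ => norm_nonneg _) (shifted_bound hD hM hh τ)
      (summable_bound M _)
  have e : (fun m : ℤ => ‖P (((m - round (τ * h) : ℤ) : ℝ) / h + τ)‖) =
      (fun n : ℤ => ‖P ((n : ℝ) / h + τ)‖) ∘ (Equiv.subRight (round (τ * h))) := rfl
  constructor
  · rw [e] at hs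
    exact (Equiv.summable_iff _).mp hs
  · rw [← Equiv.tsum_eq (Equiv.subRight (round (τ * h))) (fun n : ℤ => ‖P ((n : ℝ) / h + τ)‖)]
    have h1 : ∑' m : ℤ, ((if m = 0 then M else 0) + 4 * D * h ^ 2 * (1 / (m : ℝ) ^ 2)) =
        M + 4 * D * h ^ 2 * ∑' m : ℤ, 1 / (m : ℝ) ^ 2 := by
      rw [Summable.tsum_add (hasSum_ite_eq (0 : ℤ) M).summable
        ((Real.summable_one_div_int_pow.mpr one_lt_two).mul_left _), tsum_ite_eq, tsum_mul_left]
    rw [← h1]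
    exact Summable.tsum_le_tsum (shifted_bound hD hM hh τ) hs (summable_bound M _)

/-- Poisson summation estimate for a grid. -/
theorem grid_bound {p : 𝓢(ℝ, ℂ)} (hp : HasCompactSupport p) {D M : ℝ}
    (hD : ∀ ξ : ℝ, ξ ^ 2 * ‖(𝓕 p) ξ‖ ≤ D)
    (hM : ∀ ξ, ‖(𝓕 p) ξ‖ ≤ M) {h : ℝ} (hh : 0 < h) (s τ : ℝ) :
    ‖∑' n : ℤ, p (s + h * n) * Complex.exp (((-2 * π * (s + h * n) * τ : ℝ) : ℂ) * Complex.I)‖ ≤
      h⁻¹ * (M + 4 * D * h ^ 2 * ∑' m : ℤ, 1 / (m : ℝ) ^ 2) := by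
  set q : ℝ → ℂ := fun y : ℝ =>
    p (s + h * y) * Complex.exp (((-2 * π * (s + h * y) * τ : ℝ) : ℂ) * Complex.I) with hq
  obtain ⟨hs, hb⟩ := tsum_bound hD hM hh τ
  have hcont : Continuous q := by
    apply Continuous.mul
    · exact p.continuous.comp (by fun_prop)
    · fun_prop
  have hsum : Summable fun n : ℤ => ‖𝓕 q n‖ := by
    have : (fun n : ℤ => ‖𝓕 q n‖) = fun n : ℤ => h⁻¹ * ‖(𝓕 p) ((n : ℝ) / h + τ)‖ := by
      ext n
      exact norm_fourier_affine p hh s τ n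
    rw [this]
    exact hs.mul_left _
  have hO : q =O[cocompact ℝ] (fun x : ℝ => |x| ^ (-(2 : ℝ))) := by
    have hpc : HasCompactSupport q := by
      have h1 : HasCompactSupport (fun y : ℝ => p (s + h * y)) := by
        have := hp.comp_homeomorph ((Homeomorph.mulLeft₀ h hh.ne').trans (Homeomorph.addLeft s))
        exact this
      exact h1.mul_right
    have h2 : q =ᶠ[cocompact ℝ] 0 := by
      have := hpc.isCompact.compl_mem_cocompact
      filter_upwards [this] with x hx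
      exact image_eq_zero_of_notMem_tsupport hx
    exact h2.trans_isBigO (Asymptotics.isBigO_zero _ _)
  have hP := Real.tsum_eq_tsum_fourier_of_rpow_decay_of_summable hcont one_lt_two hO hsum.of_norm 0
  have e0 : (∑' n : ℤ, p (s + h * n) *
      Complex.exp (((-2 * π * (s + h * n) * τ : ℝ) : ℂ) * Complex.I)) = ∑' n : ℤ, q (0 + n) := by
    apply tsum_congr
    intro n
    rw [zero_add]
  rw [e0, hP]
  have hsum' : Summable fun n : ℤ => ‖𝓕 q n * fourier n ((0 : ℝ) : UnitAddCircle)‖ := by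
    convert hsum using 2 with n
    rw [norm_mul]
    simp
  refine (norm_tsum_le_tsum_norm hsum').trans ?_
  have : (∑' n : ℤ, ‖𝓕 q n * fourier n ((0 : ℝ) : UnitAddCircle)‖) =
      h⁻¹ * ∑' n : ℤ, ‖(𝓕 p) ((n : ℝ) / h + τ)‖ := by
    rw [← tsum_mul_left]
    apply tsum_congr
    intro n
    rw [← norm_fourier_affine p hh s τ n, norm_mul]
    simp [hq]
  rw [this]
  exact mul_le_mul_of_nonneg_left hb (inv_nonneg.mpr hh.le)

end Pool.Agent.H5.RA
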