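import Mathlib

set_option autoImplicit false

namespace Pool.Agent.H5.RA

open MeasureTheory Filter Topology SchwartzMap FourierTransform Set
open scoped ENNReal Real ZeroAtInfty

/-- A bounded functional on `C₀(ℝ)` is tight. -/
theorem tight (Λ : C₀(ℝ, ℂ) →L[ℂ] ℂ) {ε : ℝ} (hε : 0 < ε) :
    ∃ R : ℝ, ∀ g : C₀(ℝ, ℂ), (∀ t, |t| ≤ R → g t = 0) → ‖Λ g‖ ≤ ε * ‖g‖ := by
  set δ : ℝ := ε / (1 + ‖Λ‖) with hδ
  have hΛ : 0 ≤ ‖Λ‖ := Λ.opNorm_nonneg
  have hδ0 : 0 < δ := by positivity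
  have hδε : δ * (1 + ‖Λ‖) = ε := by rw [hδ]; field_simp
  obtain ⟨g₀, hg₀, hlt⟩ := Λ.exists_lt_apply_of_lt_opNorm (r := ‖Λ‖ - δ) (by linarith)
  have h0 : ∀ᶠ t in cocompact ℝ, ‖g₀ t‖ < δ := by
    have := (zero_at_infty g₀).norm
    rw [norm_zero] at this
    exact this.eventually (gt_mem_nhds hδ0)
  rw [Filter.Eventually, Filter.mem_cocompact] at h0
  obtain ⟨Kc, hKc, hsub⟩ := h0
  obtain ⟨R, hRK⟩ := hKc.isBounded.subset_closedBall 0
  have hR : ∀ t, R < |t| → ‖g₀ t‖ < δ := fun t ht => hsub (fun hmem => by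
    have := hRK hmem
    rw [Metric.mem_closedBall, dist_zero_right, Real.norm_eq_abs] at this
    linarith)
  refine ⟨R, fun g hg => ?_⟩
  -- reduce to norm one
  have main : ∀ g : C₀(ℝ, ℂ), (∀ t, |t| ≤ R → g t = 0) → ‖g‖ ≤ 1 → ‖Λ g‖ ≤ ε := by
    intro g hg h1
    obtain ⟨a, ha, ha'⟩ := RCLike.exists_norm_eq_mul_self (Λ g₀)
    obtain ⟨b, hb, hb'⟩ := RCLike.exists_norm_eq_mul_self (Λ g)
    have hn : ‖a • g₀ + b • g‖ ≤ 1 + δ := by
      rw [← ZeroAtInftyContinuousMap.norm_toBCF_eq_norm,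
        BoundedContinuousFunction.norm_le (by positivity)]
      intro t
      change ‖a • g₀ t + b • g t‖ ≤ 1 + δ
      by_cases ht : |t| ≤ R
      · rw [hg t ht, smul_zero, add_zero, norm_smul, ha, one_mul]
        have : ‖g₀ t‖ ≤ ‖g₀‖ := by
          rw [← ZeroAtInftyContinuousMap.norm_toBCF_eq_norm]
          exact g₀.toBCF.norm_coe_le_norm t
        linarith
      · have h2 : ‖g₀ t‖ < δ := hR t (not_le.mp ht)
        have h3 : ‖g t‖ ≤ ‖g‖ := by
          rw [← ZeroAtInftyContinuousMap.norm_toBCF_eq_norm]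
          exact g.toBCF.norm_coe_le_norm t
        refine (norm_add_le _ _).trans ?_
        rw [norm_smul, norm_smul, ha, hb, one_mul, one_mul]
        linarith
    have h4 : Λ (a • g₀ + b • g) = ((‖Λ g₀‖ + ‖Λ g‖ : ℝ) : ℂ) := by
      rw [map_add, map_smul, map_smul, smul_eq_mul, smul_eq_mul]
      push_cast
      rw [← ha', ← hb']
      rfl
    have h5 : ‖Λ g₀‖ + ‖Λ g‖ ≤ ‖Λ‖ * (1 + δ) := by
      have := (Λ.le_opNorm (a • g₀ + b • g)).trans (mul_le_mul_of_nonneg_left hn hΛ)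
      rw [h4, Complex.norm_real, Real.norm_eq_abs, abs_of_nonneg (by positivity)] at this
      exact this
    nlinarith
  by_cases hz : ‖g‖ = 0
  · have : g = 0 := norm_eq_zero.mp hz
    rw [this]; simp
  · have hpos : 0 < ‖g‖ := lt_of_le_of_ne (norm_nonneg _) (Ne.symm hz)
    have h6 := main (((‖g‖⁻¹ : ℝ) : ℂ) • g) (fun t ht => by
      change (((‖g‖⁻¹ : ℝ) : ℂ)) • g t = 0
      rw [hg t ht, smul_zero]) (by
      rw [norm_smul, Complex.norm_real, Real.norm_eq_abs, abs_of_pos (inv_pos.mpr hpos),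
        inv_mul_cancel₀ hz])
    rw [map_smul, norm_smul, Complex.norm_real, Real.norm_eq_abs, abs_of_pos (inv_pos.mpr hpos),
      inv_mul_le_iff₀ hpos] at h6
    linarith

/-- The cut-off function. -/
noncomputable def chi (n : ℕ) (t : ℝ) : ℝ := max 0 (min 1 (n + 1 - |t|))

theorem chi_nonneg (n : ℕ) (t : ℝ) : 0 ≤ chi n t := le_max_left _ _

theorem chi_le_one (n : ℕ) (t : ℝ) : chi n t ≤ 1 := max_le zero_le_one (min_le_left _ _)

theorem chi_eq_one {n : ℕ} {t : ℝ} (h : |t| ≤ n) : chi n t = 1 := by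
  unfold chi
  rw [min_eq_left (by linarith), max_eq_right zero_le_one]

theorem chi_eq_zero {n : ℕ} {t : ℝ} (h : (n : ℝ) + 1 ≤ |t|) : chi n t = 0 := by
  unfold chi
  rw [max_eq_left]
  exact (min_le_right _ _).trans (by linarith)

theorem chi_continuous (n : ℕ) : Continuous (chi n) := by
  unfold chi
  fun_prop

/-- Multiplication of a continuous function by the cut-off function. -/
noncomputable def cut (n : ℕ) (b : C(ℝ, ℂ)) : C₀(ℝ, ℂ) where
  toFun t := b t * (chi n t : ℂ)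
  continuous_toFun := by
    have := chi_continuous n
    fun_prop
  zero_at_infty' := by
    apply tendsto_const_nhds.congr'
    have : (Metric.closedBall (0 : ℝ) (n + 1))ᶜ ∈ cocompact ℝ :=
      (isCompact_closedBall (0 : ℝ) _).compl_mem_cocompact
    filter_upwards [this] with t ht
    rw [mem_compl_iff, Metric.mem_closedBall, dist_zero_right, Real.norm_eq_abs, not_le] at ht
    rw [chi_eq_zero ht.le]; simp

theorem cut_apply (n : ℕ) (b : C(ℝ, ℂ)) (t : ℝ) : cut n b t = b t * (chi n t : ℂ) := rfl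

theorem norm_le_of {g : C₀(ℝ, ℂ)} {B : ℝ} (hB : 0 ≤ B) (h : ∀ t, ‖g t‖ ≤ B) : ‖g‖ ≤ B := by
  rw [← ZeroAtInftyContinuousMap.norm_toBCF_eq_norm, BoundedContinuousFunction.norm_le hB]
  exact h

theorem norm_cut_le {n : ℕ} {b : C(ℝ, ℂ)} {B : ℝ} (hB : 0 ≤ B) (h : ∀ t, ‖b t‖ ≤ B) :
    ‖cut n b‖ ≤ B := by
  apply norm_le_of hB
  intro t
  rw [cut_apply, norm_mul, Complex.norm_real, Real.norm_eq_abs, abs_of_nonneg (chi_nonneg n t)]
  calc ‖b t‖ * chi n t ≤ ‖b t‖ * 1 := mul_le_mul_of_nonneg_left (chi_le_one n t) (norm_nonneg _)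
    _ ≤ B := by rw [mul_one]; exact h t

/-- The exponential `ξ ↦ exp (-2π i x ξ)`. -/
noncomputable def ex (x : ℝ) : C(ℝ, ℂ) :=
  ⟨fun ξ => Complex.exp (((-2 * π * x * ξ : ℝ) : ℂ) * Complex.I), by fun_prop⟩

theorem ex_apply (x ξ : ℝ) :
    ex x ξ = Complex.exp (((-2 * π * x * ξ : ℝ) : ℂ) * Complex.I) := rfl

theorem norm_ex (x ξ : ℝ) : ‖ex x ξ‖ = 1 := by
  rw [ex_apply]; exact Complex.norm_exp_ofReal_mul_I _

theorem norm_exp_sub_exp_le (a b : ℝ) :
    ‖Complex.exp ((a : ℂ) * Complex.I) - Complex.exp ((b : ℂ) * Complex.I)‖ ≤ |a - b| := by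
  have h : Complex.exp ((a : ℂ) * Complex.I) - Complex.exp ((b : ℂ) * Complex.I) =
      Complex.exp ((b : ℂ) * Complex.I) * (Complex.exp (Complex.I * ((a - b : ℝ) : ℂ)) - 1) := by
    rw [mul_sub, mul_one, ← Complex.exp_add]
    congr 2
    push_cast; ring
  rw [h, norm_mul, Complex.norm_exp_ofReal_mul_I, one_mul]
  exact Real.norm_exp_I_mul_ofReal_sub_one_le

theorem cut_sub_le (n : ℕ) (x y : ℝ) :
    ‖cut n (ex x) - cut n (ex y)‖ ≤ 2 * π * (n + 1) * |x - y| := by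
  have hpi := Real.pi_pos
  apply norm_le_of (by positivity)
  intro t
  change ‖cut n (ex x) t - cut n (ex y) t‖ ≤ _
  rw [cut_apply, cut_apply, ← sub_mul, norm_mul, Complex.norm_real, Real.norm_eq_abs,
    abs_of_nonneg (chi_nonneg n t)]
  by_cases ht : (n : ℝ) + 1 ≤ |t|
  · rw [chi_eq_zero ht, mul_zero]; positivity
  · push Not at ht
    have h1 : ‖ex x t - ex y t‖ ≤ 2 * π * |x - y| * |t| := by
      rw [ex_apply, ex_apply]
      refine (norm_exp_sub_exp_le _ _).trans (le_of_eq ?_)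
      rw [show -2 * π * x * t - -2 * π * y * t = -(2 * π * (x - y) * t) by ring, abs_neg, abs_mul,
        abs_mul, abs_of_pos (by positivity : (0 : ℝ) < 2 * π)]
    calc ‖ex x t - ex y t‖ * chi n t ≤ ‖ex x t - ex y t‖ * 1 :=
          mul_le_mul_of_nonneg_left (chi_le_one n t) (norm_nonneg _)
      _ ≤ 2 * π * |x - y| * |t| := by rw [mul_one]; exact h1
      _ ≤ 2 * π * |x - y| * (n + 1) := mul_le_mul_of_nonneg_left ht.le (by positivity)
      _ = _ := by ring

theorem continuous_cut_ex (n : ℕ) : Continuous fun x : ℝ => cut n (ex x) := by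
  have hpi := Real.pi_pos
  have : LipschitzWith (Real.toNNReal (2 * π * (n + 1))) fun x : ℝ => cut n (ex x) := by
    apply LipschitzWith.of_dist_le_mul
    intro x y
    rw [dist_eq_norm, Real.coe_toNNReal _ (by positivity), Real.dist_eq]
    exact cut_sub_le n x y
  exact this.continuous

end Pool.Agent.H5.RA
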