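import Mathlib
import Pool.Agent.H5.RA.Fun
import Pool.Agent.H5.RA.Key

set_option autoImplicit false

namespace Pool.Agent.H5.RA

open MeasureTheory Filter Topology SchwartzMap FourierTransform Set
open scoped ENNReal Real ZeroAtInfty

theorem cauchy_cut (Λ : C₀(ℝ, ℂ) →L[ℂ] ℂ) {ε : ℝ} (hε : 0 < ε) :
    ∃ N : ℕ, ∀ n ≥ N, ∀ m ≥ N, ∀ b : C(ℝ, ℂ), (∀ t, ‖b t‖ ≤ 1) →
      ‖Λ (cut n b) - Λ (cut m b)‖ ≤ ε := by
  obtain ⟨R, hR⟩ := tight Λ hε
  obtain ⟨N, hN⟩ := exists_nat_ge R
  refine ⟨N, fun n hn m hm b hb => ?_⟩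
  have hn' : (N : ℝ) ≤ n := by exact_mod_cast hn
  have hm' : (N : ℝ) ≤ m := by exact_mod_cast hm
  rw [← map_sub]
  refine (hR (cut n b - cut m b) ?_).trans ?_
  · intro t ht
    change cut n b t - cut m b t = 0
    rw [cut_apply, cut_apply, chi_eq_one (by linarith), chi_eq_one (by linarith), sub_self]
  · have : ‖cut n b - cut m b‖ ≤ 1 := by
      apply norm_le_of zero_le_one
      intro t
      change ‖cut n b t - cut m b t‖ ≤ 1
      rw [cut_apply, cut_apply, ← mul_sub, norm_mul, ← Complex.ofReal_sub, Complex.norm_real,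
        Real.norm_eq_abs]
      have h1 : |chi n t - chi m t| ≤ 1 := by
        rw [abs_le]
        constructor <;> linarith [chi_nonneg n t, chi_nonneg m t, chi_le_one n t, chi_le_one m t]
      calc ‖b t‖ * |chi n t - chi m t| ≤ 1 * 1 :=
            mul_le_mul (hb t) h1 (abs_nonneg _) zero_le_one
        _ = 1 := one_mul 1
    calc ε * ‖cut n b - cut m b‖ ≤ ε * 1 := mul_le_mul_of_nonneg_left this hε.le
      _ = ε := mul_one ε

theorem exists_limit (Λ : C₀(ℝ, ℂ) →L[ℂ] ℂ) :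
    ∃ g : ℝ → ℂ, Continuous g ∧ ∀ x, Tendsto (fun n : ℕ => Λ (cut n (ex x))) atTop (𝓝 (g x)) := by
  have hU : UniformCauchySeqOn (fun (n : ℕ) (x : ℝ) => Λ (cut n (ex x))) atTop univ := by
    rw [Metric.uniformCauchySeqOn_iff]
    intro ε hε
    obtain ⟨N, hN⟩ := cauchy_cut Λ (half_pos hε)
    refine ⟨N, fun m hm n hn x _ => ?_⟩
    rw [dist_eq_norm]
    have := hN m hm n hn (ex x) (fun t => (norm_ex x t).le)
    linarith
  have hex : ∀ x : ℝ, ∃ y, Tendsto (fun n : ℕ => Λ (cut n (ex x))) atTop (𝓝 y) := by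
    intro x
    apply cauchySeq_tendsto_of_complete
    exact hU.cauchySeq (mem_univ x)
  choose g hg using hex
  refine ⟨g, ?_, hg⟩
  have hT : TendstoUniformlyOn (fun (n : ℕ) (x : ℝ) => Λ (cut n (ex x))) g atTop univ :=
    hU.tendstoUniformlyOn_of_tendsto (fun x _ => hg x)
  rw [tendstoUniformlyOn_univ] at hT
  apply hT.continuous
  apply Filter.Eventually.frequently
  refine Filter.Eventually.of_forall fun n => ?_
  exact Λ.continuous.comp (continuous_cut_ex n)

theorem ex_eq (x t : ℝ) : ex x t = Complex.exp (Complex.I * x * ((-2 * π * t : ℝ) : ℂ)) := by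
  rw [ex_apply]
  congr 1
  push_cast; ring

theorem bddAbove_ap (c : ℝ →₀ ℂ) : BddAbove (range fun t : ℝ =>
    ‖c.sum fun x a => a * Complex.exp (Complex.I * x * t)‖) := by
  refine ⟨∑ x ∈ c.support, ‖c x‖, ?_⟩
  rintro _ ⟨t, rfl⟩
  simp only [Finsupp.sum]
  refine (norm_sum_le _ _).trans (Finset.sum_le_sum fun x _ => ?_)
  rw [norm_mul, show Complex.I * (x : ℂ) * t = ((x * t : ℝ) : ℂ) * Complex.I by push_cast; ring,
    Complex.norm_exp_ofReal_mul_I, mul_one]

theorem apNorm_nonneg (c : ℝ →₀ ℂ) : 0 ≤ apNorm c := Real.iSup_nonneg fun _ => norm_nonneg _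

theorem limit_bound (Λ : C₀(ℝ, ℂ) →L[ℂ] ℂ) {g : ℝ → ℂ}
    (hg : ∀ x, Tendsto (fun n : ℕ => Λ (cut n (ex x))) atTop (𝓝 (g x))) (c : ℝ →₀ ℂ) :
    ‖c.sum fun x a => a * g x‖ ≤ ‖Λ‖ * apNorm c := by
  have h1 : Tendsto (fun n : ℕ => ‖c.sum fun x a => a * Λ (cut n (ex x))‖) atTop
      (𝓝 ‖c.sum fun x a => a * g x‖) := by
    apply Tendsto.norm
    simp only [Finsupp.sum]
    exact tendsto_finsetSum _ fun x _ => (hg x).const_mul (c x)
  refine le_of_tendsto h1 (Filter.Eventually.of_forall fun n => ?_)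
  have h2 : (c.sum fun x a => a * Λ (cut n (ex x))) = Λ (∑ x ∈ c.support, c x • cut n (ex x)) := by
    simp only [Finsupp.sum, map_sum, map_smul, smul_eq_mul]
  rw [h2]
  refine (Λ.le_opNorm _).trans (mul_le_mul_of_nonneg_left ?_ Λ.opNorm_nonneg)
  apply norm_le_of (apNorm_nonneg c)
  intro t
  have h3 : (∑ x ∈ c.support, c x • cut n (ex x)) t =
      (c.sum fun x a => a * Complex.exp (Complex.I * x * ((-2 * π * t : ℝ) : ℂ))) * (chi n t : ℂ) := by
    have h4 : ∀ S : Finset ℝ, (∑ x ∈ S, c x • cut n (ex x)) t =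
        ∑ x ∈ S, c x * (ex x t * (chi n t : ℂ)) := by
      intro S
      classical
      induction S using Finset.induction_on with
      | empty => simp
      | insert a s ha ih =>
        rw [Finset.sum_insert ha, Finset.sum_insert ha, ← ih]
        rfl
    rw [h4, Finsupp.sum, Finset.sum_mul]
    apply Finset.sum_congr rfl
    intro x _
    rw [ex_eq]; ring
  rw [h3, norm_mul, Complex.norm_real, Real.norm_eq_abs, abs_of_nonneg (chi_nonneg n t)]
  have h5 := le_ciSup (bddAbove_ap c) (-2 * π * t)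
  calc _ ≤ ‖c.sum fun x a => a * Complex.exp (Complex.I * x * ((-2 * π * t : ℝ) : ℂ))‖ * 1 :=
        mul_le_mul_of_nonneg_left (chi_le_one n t) (norm_nonneg _)
    _ ≤ apNorm c := by rw [mul_one]; exact h5

/-- evaluation -/
noncomputable def evL (t : ℝ) : C₀(ℝ, ℂ) →L[ℂ] ℂ :=
  LinearMap.mkContinuous
    { toFun := fun g => g t
      map_add' := fun _ _ => rfl
      map_smul' := fun _ _ => rfl } 1 (fun g => by
        rw [one_mul, ← ZeroAtInftyContinuousMap.norm_toBCF_eq_norm]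
        exact g.toBCF.norm_coe_le_norm t)

theorem evL_apply (t : ℝ) (g : C₀(ℝ, ℂ)) : evL t g = g t := rfl

theorem tendsto_cut (Λ : C₀(ℝ, ℂ) →L[ℂ] ℂ) (G : C₀(ℝ, ℂ)) :
    Tendsto (fun n : ℕ => Λ (cut n G.toContinuousMap)) atTop (𝓝 (Λ G)) := by
  rw [Metric.tendsto_atTop]
  intro ε hε
  set B : ℝ := ‖G‖ with hB
  have hB0 : 0 ≤ B := norm_nonneg _
  obtain ⟨R, hR⟩ := tight Λ (ε := ε / (B + 1)) (by positivity)
  obtain ⟨N, hN⟩ := exists_nat_ge R
  refine ⟨N, fun n hn => ?_⟩
  have hn' : (N : ℝ) ≤ n := by exact_mod_cast hn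
  rw [dist_eq_norm, ← map_sub]
  have e5 : ∀ t, (cut n G.toContinuousMap - G) t = G t * (chi n t : ℂ) - G t := fun t => rfl
  have h4 : ‖cut n G.toContinuousMap - G‖ ≤ B := by
    apply norm_le_of hB0
    intro t
    rw [e5]
    have e4 : G t * (chi n t : ℂ) - G t = G t * ((chi n t - 1 : ℝ) : ℂ) := by
      push_cast; ring
    rw [e4, norm_mul, Complex.norm_real, Real.norm_eq_abs]
    have h5 : |chi n t - 1| ≤ 1 := by
      rw [abs_le]
      constructor <;> linarith [chi_nonneg n t, chi_le_one n t]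
    have h6 : ‖G t‖ ≤ B := by
      rw [hB, ← ZeroAtInftyContinuousMap.norm_toBCF_eq_norm]
      exact G.toBCF.norm_coe_le_norm t
    calc _ ≤ B * 1 := mul_le_mul h6 h5 (abs_nonneg _) hB0
      _ = B := mul_one B
  have h7 := hR (cut n G.toContinuousMap - G) (by
    intro t ht
    rw [e5, chi_eq_one (by linarith), Complex.ofReal_one, mul_one, sub_self])
  refine h7.trans_lt ?_
  calc ε / (B + 1) * ‖cut n G.toContinuousMap - G‖
      ≤ ε / (B + 1) * B := mul_le_mul_of_nonneg_left h4 (by positivity)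
    _ < ε := by
      rw [div_mul_eq_mul_div, div_lt_iff₀ (by positivity)]
      nlinarith

theorem limit_integral (Λ : C₀(ℝ, ℂ) →L[ℂ] ℂ) {g : ℝ → ℂ}
    (hg : ∀ x, Tendsto (fun n : ℕ => Λ (cut n (ex x))) atTop (𝓝 (g x)))
    (p : 𝓢(ℝ, ℂ)) (hp : HasCompactSupport p) :
    ∫ x, p x * g x = Λ (𝓕 p).toZeroAtInfty := by
  -- the left-hand side as a limit
  have h1 : Tendsto (fun n : ℕ => ∫ x, p x * Λ (cut n (ex x))) atTop (𝓝 (∫ x, p x * g x)) := by
    apply tendsto_integral_of_dominated_convergence (fun x => ‖p x‖ * ‖Λ‖)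
    · intro n
      exact (p.continuous.mul (Λ.continuous.comp (continuous_cut_ex n))).aestronglyMeasurable
    · exact p.integrable.norm.mul_const _
    · intro n
      refine Filter.Eventually.of_forall fun x => ?_
      rw [norm_mul]
      apply mul_le_mul_of_nonneg_left _ (norm_nonneg _)
      calc ‖Λ (cut n (ex x))‖ ≤ ‖Λ‖ * ‖cut n (ex x)‖ := Λ.le_opNorm _
        _ ≤ ‖Λ‖ * 1 := mul_le_mul_of_nonneg_left
            (norm_cut_le zero_le_one fun t => (norm_ex x t).le) Λ.opNorm_nonneg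
        _ = ‖Λ‖ := mul_one _
    · exact Filter.Eventually.of_forall fun x => (hg x).const_mul (p x)
  -- the integral inside
  have h2 : ∀ n : ℕ, (∫ x, p x * Λ (cut n (ex x))) =
      Λ (cut n (𝓕 p).toZeroAtInfty.toContinuousMap) := by
    intro n
    have hint : Integrable (fun x => p x • cut n (ex x)) := by
      apply Continuous.integrable_of_hasCompactSupport
      · exact p.continuous.smul (continuous_cut_ex n)
      · exact hp.smul_right
    have e1 : (∫ x, p x * Λ (cut n (ex x))) = Λ (∫ x, p x • cut n (ex x)) := by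
      rw [← ContinuousLinearMap.integral_comp_comm Λ hint]
      congr 1
      ext x
      rw [map_smul, smul_eq_mul]
    rw [e1]
    congr 1
    ext t
    have e2 : (∫ x, p x • cut n (ex x)) t = ∫ x, evL t (p x • cut n (ex x)) := by
      rw [ContinuousLinearMap.integral_comp_comm (evL t) hint, evL_apply]
    rw [e2, cut_apply]
    have e3 : ∀ x, evL t (p x • cut n (ex x)) = (p x * ex x t) * (chi n t : ℂ) := by
      intro x
      rw [map_smul, evL_apply, cut_apply, smul_eq_mul, mul_assoc]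
    simp_rw [e3]
    rw [integral_mul_const]
    congr 1
    change _ = (𝓕 p) t
    rw [SchwartzMap.fourier_coe, Real.fourier_real_eq_integral_exp_smul]
    congr 1
    ext x
    rw [ex_apply, smul_eq_mul, mul_comm]
  have h1' : Tendsto (fun n : ℕ => Λ (cut n (𝓕 p).toZeroAtInfty.toContinuousMap)) atTop
      (𝓝 (∫ x, p x * g x)) := by
    refine h1.congr fun n => h2 n
  exact tendsto_nhds_unique h1' (tendsto_cut Λ _)

end Pool.Agent.H5.RA
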