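import Mathlib
import Pool.Agent.H5.RA.Key

set_option autoImplicit false

namespace Pool.Agent.H5.RA

open MeasureTheory Filter Topology SchwartzMap FourierTransform Set
open scoped ENNReal Real Interval

theorem apNorm_single (x : ℝ) : apNorm (Finsupp.single x 1) = 1 := by
  unfold apNorm
  have : ∀ t : ℝ, ‖(Finsupp.single x (1 : ℂ)).sum fun x a =>
      a * Complex.exp (Complex.I * x * t)‖ = 1 := by
    intro t
    rw [Finsupp.sum_single_index (by simp), one_mul]
    rw [show Complex.I * (x : ℂ) * t = ((x * t : ℝ) : ℂ) * Complex.I by push_cast; ring]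
    exact Complex.norm_exp_ofReal_mul_I _
  simp_rw [this]
  exact ciSup_const

theorem BoundR.norm_le {A : ℝ≥0∞} {C : ℝ} {f : ℝ → ℂ} (h : BoundR A C f) {x : ℝ}
    (hx : x ∈ Iv A) : ‖f x‖ ≤ C := by
  have := h (Finsupp.single x 1) (by
    intro y hy
    have h2 := Finsupp.support_single_subset hy
    rw [Finset.mem_singleton] at h2
    rw [h2]; exact hx)
  rw [apNorm_single, mul_one, Finsupp.sum_single_index (by simp), one_mul] at this
  exact this

theorem zero_mem_Iv {A : ℝ≥0∞} (hA : 0 < A) : (0 : ℝ) ∈ Iv A := by
  simp only [Iv, Set.mem_ofPred_eq, abs_zero, ENNReal.ofReal_zero]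
  exact hA

theorem isOpen_Iv (A : ℝ≥0∞) : IsOpen (Iv A) := by
  unfold Iv
  exact isOpen_lt (ENNReal.continuous_ofReal.comp continuous_abs) continuous_const

theorem key {A : ℝ≥0∞} {C : ℝ} {f : ℝ → ℂ} (hC : 0 ≤ C) (hf : BoundR A C f)
    (hfm : AEStronglyMeasurable f (volume.restrict (Iv A)))
    (p : 𝓢(ℝ, ℂ)) (hp : HasCompactSupport p) {R : ℝ} (hR : 0 < R)
    (hsupp : ∀ x, p x ≠ 0 → x ∈ Ioo (-R) R) (hRA : Icc (-R) R ⊆ Iv A) {M : ℝ}
    (hM : ∀ ξ, ‖(𝓕 p) ξ‖ ≤ M) :
    ‖∫ x in (-R)..R, p x * f x‖ ≤ C * M := by
  obtain ⟨D, hD0, hD⟩ := exists_decay (𝓕 p)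
  set Z : ℝ := ∑' m : ℤ, 1 / (m : ℝ) ^ 2 with hZ
  -- integrability
  have hint : IntegrableOn (fun x => p x * f x) (Icc (-R) R) := by
    have h1 : AEStronglyMeasurable (fun x => p x * f x) (volume.restrict (Icc (-R) R)) :=
      (p.continuous.aestronglyMeasurable).mul (hfm.mono_set hRA)
    obtain ⟨B, hB⟩ := (isCompact_Icc (a := -R) (b := R)).exists_bound_of_continuousOn
      p.continuous.continuousOn
    refine IntegrableOn.of_bound (by simp) h1 (B * C) ?_
    rw [ae_restrict_iff' measurableSet_Icc]
    refine Filter.Eventually.of_forall fun x hx => ?_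
    rw [norm_mul]
    exact mul_le_mul (hB x hx) (hf.norm_le (hRA hx)) (norm_nonneg _)
      ((norm_nonneg _).trans (hB x hx))
  have hII : ∀ a b : ℝ, a ∈ Icc (-R) R → b ∈ Icc (-R) R →
      IntervalIntegrable (fun x => p x * f x) volume a b := by
    intro a b ha hb
    apply IntegrableOn.intervalIntegrable
    exact hint.mono_set (uIcc_subset_Icc ha hb)
  -- the estimate for each grid
  have main : ∀ K : ℕ, 0 < K →
      ‖∫ x in (-R)..R, p x * f x‖ ≤ C * (M + 4 * D * (R / K) ^ 2 * Z) := by
    intro K hK
    set h : ℝ := R / K with hh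
    have hK' : (0 : ℝ) < K := by exact_mod_cast hK
    have hpos : 0 < h := div_pos hR hK'
    have hKh : h * K = R := by rw [hh]; field_simp
    set a : ℕ → ℝ := fun k => -R + h * k with ha
    have ha0 : a 0 = -R := by simp [ha]
    have haN : a (2 * K) = R := by
      simp only [ha]; push_cast; linarith
    have hamem : ∀ k : ℕ, k ≤ 2 * K → a k ∈ Icc (-R) R := by
      intro k hk
      have hk' : (k : ℝ) ≤ 2 * K := by exact_mod_cast hk
      constructor
      · simp only [ha]; nlinarith [Nat.cast_nonneg (α := ℝ) k]
      · simp only [ha]; nlinarith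
    have hsum := intervalIntegral.sum_integral_adjacent_intervals (μ := volume)
      (f := fun x => p x * f x) (a := a) (n := 2 * K)
      (fun k hk => hII _ _ (hamem k hk.le) (hamem (k + 1) hk))
    rw [ha0, haN] at hsum
    have hshift : ∀ k ∈ Finset.range (2 * K), (∫ x in a k..a (k + 1), p x * f x) =
        ∫ s in (0 : ℝ)..h, p (s + a k) * f (s + a k) := by
      intro k _
      rw [intervalIntegral.integral_comp_add_right (fun x => p x * f x) (a k), zero_add]
      congr 1
      simp only [ha]; push_cast; ring
    rw [Finset.sum_congr rfl hshift, ← intervalIntegral.integral_finsetSum] at hsum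
    swap
    · intro k hk
      rw [Finset.mem_range] at hk
      have := (hII _ _ (hamem k hk.le) (hamem (k + 1) hk)).comp_add_right (a k)
      rw [sub_self] at this
      convert this using 1
      simp only [ha]; push_cast; ring
    rw [← hsum]
    have hbound : ∀ s ∈ Ι (0 : ℝ) h,
        ‖∑ k ∈ Finset.range (2 * K), p (s + a k) * f (s + a k)‖ ≤
          h⁻¹ * (C * (M + 4 * D * h ^ 2 * Z)) := by
      intro s hs
      rw [uIoc_of_le hpos.le] at hs
      have h1 : ∀ k ∈ Finset.range (2 * K), s + a k ∈ Iv A := by
        intro k hk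
        rw [Finset.mem_range] at hk
        apply hRA
        have hk' : (k : ℝ) + 1 ≤ 2 * K := by exact_mod_cast hk
        constructor
        · have := (hamem k hk.le).1
          linarith [hs.1]
        · simp only [ha]; nlinarith [hs.2]
      have h2 := hf.finset hC (Finset.range (2 * K)) (fun k => s + a k) (fun k => p (s + a k))
        h1 (h⁻¹ * (M + 4 * D * h ^ 2 * Z)) ?_
      · refine h2.trans (le_of_eq ?_); ring
      · intro t
        have hg := grid_bound hp hD hM hpos (s - R) (-t / (2 * π))
        refine le_trans (le_of_eq ?_) hg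
        congr 1
        rw [tsum_eq_sum (s := (Finset.range (2 * K)).map Nat.castEmbedding)]
        · rw [Finset.sum_map]
          apply Finset.sum_congr rfl
          intro k _
          simp only [Nat.castEmbedding_apply, Int.cast_natCast, ha]
          have e1 : s - R + h * (k : ℝ) = s + (-R + h * k) := by ring
          rw [e1]
          congr 2
          push_cast
          have : (π : ℂ) ≠ 0 := by exact_mod_cast Real.pi_ne_zero
          field_simp
        · intro n hn
          have : p (s - R + h * n) = 0 := by
            by_contra hne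
            have hm := hsupp _ hne
            apply hn
            rw [Finset.mem_map]
            have hn0 : 0 ≤ n := by
              by_contra hlt
              push Not at hlt
              have : (n : ℝ) ≤ -1 := by
                have : n ≤ -1 := by omega
                exact_mod_cast this
              have h3 := hm.1
              nlinarith [hs.2]
            have hn1 : n < 2 * K := by
              by_contra hge
              push Not at hge
              have : (2 * K : ℝ) ≤ n := by exact_mod_cast hge
              have h3 := hm.2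
              nlinarith [hs.1]
            refine ⟨n.toNat, ?_, ?_⟩
            · rw [Finset.mem_range]; omega
            · simp [hn0]
          rw [this, zero_mul]
    have := intervalIntegral.norm_integral_le_of_norm_le_const hbound
    refine this.trans (le_of_eq ?_)
    rw [sub_zero, abs_of_pos hpos]
    field_simp
  -- let `K → ∞`
  have hlim : Tendsto (fun K : ℕ => C * (M + 4 * D * (R / K) ^ 2 * Z)) atTop
      (𝓝 (C * (M + 4 * D * 0 ^ 2 * Z))) := by
    have : Tendsto (fun K : ℕ => R / (K : ℝ)) atTop (𝓝 0) :=
      tendsto_const_div_atTop_nhds_zero_nat R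
    exact ((((this.pow 2).const_mul (4 * D)).mul_const Z).const_add M).const_mul C
  have e : C * (M + 4 * D * 0 ^ 2 * Z) = C * M := by ring
  rw [e] at hlim
  refine ge_of_tendsto hlim ?_
  filter_upwards [eventually_gt_atTop 0] with K hK
  exact main K hK

end Pool.Agent.H5.RA
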